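import Pool.Agent.X202.Agl.E

set_option autoImplicit false

open scoped InnerProductSpace ENNReal
open Filter Topology

namespace Pool.Agent.Results.MP_dfd7ce_an.NotOpen

noncomputable section

/-- `H²(𝔻²)`, by its coefficients: the square-summable double sequences. -/
abbrev H2 : Type := lp (fun _ : ℕ × ℕ => ℂ) 2

/-- the inner product `⟨g, f⟩ = ∑ₙ gₙ conj(fₙ)` of `H²(𝔻²)` -/
def ip (f g : H2) : ℂ := ∑' n : ℕ × ℕ, g.1 n * (starRingEnd ℂ) (f.1 n)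

theorem ip_eq (f g : H2) : ip f g = ⟪f, g⟫_ℂ := rfl

/-- closed linear subspace of `H²(𝔻²)` -/
def IsClosedSubspace (S : Set H2) : Prop := IsClosed S ∧ ∃ T : Submodule ℂ H2, (T : Set H2) = S

/-- the open bidisk -/
def bidisk : Set (ℂ × ℂ) := {z | ‖z.1‖ < 1 ∧ ‖z.2‖ < 1}

/-- the value at `z` of the function with coefficients `f` -/
def val (f : H2) (z : ℂ × ℂ) : ℂ := ∑' n : ℕ × ℕ, f.1 n * z.1 ^ n.1 * z.2 ^ n.2

/-- `g = φ f` on the bidisk -/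
def Times (φ : ℂ × ℂ → ℂ) (f g : H2) : Prop := ∀ z ∈ bidisk, val g z = φ z * val f z

/-- rational inner function: a quotient of polynomials whose denominator has no zero in the
bidisk, with radial boundary values of modulus one at almost every point of the torus -/
def IsRIF (θ : ℂ × ℂ → ℂ) : Prop :=
  (∃ p q : MvPolynomial (Fin 2) ℂ, ∀ z ∈ bidisk,
    MvPolynomial.eval ![z.1, z.2] p ≠ 0 ∧
      θ z = MvPolynomial.eval ![z.1, z.2] q / MvPolynomial.eval ![z.1, z.2] p) ∧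
  ∀ᵐ a : ℝ × ℝ, Tendsto (fun r : ℝ =>
    ‖θ ((r : ℂ) * Complex.exp (a.1 * Complex.I), (r : ℂ) * Complex.exp (a.2 * Complex.I))‖)
    (𝓝[<] 1) (𝓝 1)

/-- `K_θ = H² ⊖ θ H²` -/
def modelSpace (θ : ℂ × ℂ → ℂ) : Set H2 := {h | ∀ f g, Times θ f g → ip g h = 0}

/-- Agler decomposition `K_θ = S₁ ⊕ S₂` -/
structure IsAgler (θ : ℂ × ℂ → ℂ) (S₁ S₂ : Set H2) : Prop where
  closed₁ : IsClosedSubspace S₁
  closed₂ : IsClosedSubspace S₂
  orth : ∀ f ∈ S₁, ∀ g ∈ S₂, ip f g = 0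
  sum : ∀ h, h ∈ modelSpace θ ↔ ∃ f ∈ S₁, ∃ g ∈ S₂, h = f + g
  inv₁ : ∀ f ∈ S₁, ∀ g, Times Prod.fst f g → g ∈ S₁
  inv₂ : ∀ f ∈ S₂, ∀ g, Times Prod.snd f g → g ∈ S₂

/-- numerical range of the compression to `S` of multiplication by `φ`: the numbers
`⟨P_S(φ f), f⟩`, `f ∈ S`, `‖f‖ = 1` (here `g = φ f` and `s = P_S g`) -/
def numRange (φ : ℂ × ℂ → ℂ) (S : Set H2) : Set ℂ :=
  {c | ∃ f ∈ S, ‖f‖ = 1 ∧ ∃ g s : H2, Times φ f g ∧ s ∈ S ∧ (∀ h ∈ S, ip h (g - s) = 0) ∧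
    c = ip f s}

/-- the counterexample `θ = (4 z₁² z₂ + z₁² - z₁ + 1) / (4 + (z₁² - z₁ + 1) z₂)` -/
def theta (z : ℂ × ℂ) : ℂ :=
  (4 * z.1 ^ 2 * z.2 + (z.1 ^ 2 - z.1 + 1)) / (4 + (z.1 ^ 2 - z.1 + 1) * z.2)

theorem isRIF : IsRIF theta := by
  refine ⟨⟨4 + (MvPolynomial.X 0 ^ 2 - MvPolynomial.X 0 + 1) * MvPolynomial.X 1,
    4 * MvPolynomial.X 0 ^ 2 * MvPolynomial.X 1 + (MvPolynomial.X 0 ^ 2 - MvPolynomial.X 0 + 1),
    ?_⟩, ?_⟩
  · intro z hz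
    have h1 : MvPolynomial.eval ![z.1, z.2]
        (4 + (MvPolynomial.X 0 ^ 2 - MvPolynomial.X 0 + 1) * MvPolynomial.X 1 :
          MvPolynomial (Fin 2) ℂ) = 4 + (z.1 ^ 2 - z.1 + 1) * z.2 := by
      simp
    have h2 : MvPolynomial.eval ![z.1, z.2]
        (4 * MvPolynomial.X 0 ^ 2 * MvPolynomial.X 1 +
          (MvPolynomial.X 0 ^ 2 - MvPolynomial.X 0 + 1) : MvPolynomial (Fin 2) ℂ) =
          4 * z.1 ^ 2 * z.2 + (z.1 ^ 2 - z.1 + 1) := by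
      simp
    rw [h1, h2]
    exact ⟨Pool.Agent.X202.Agl.pp_ne z hz.1.le hz.2.le, rfl⟩
  · exact MeasureTheory.ae_of_all _ Pool.Agent.X202.Agl.radial

open Pool.Agent.X202 in
theorem isAgler : IsAgler theta (Agl.S1 : Set Agl.H2) (Agl.S2 : Set Agl.H2) where
  closed₁ := ⟨Agl.S1_closed, Agl.S1, rfl⟩
  closed₂ := ⟨Agl.S2_closed, Agl.S2, rfl⟩
  orth := by
    intro f hf g hg
    have h := hf.2 g hg
    exact inner_eq_zero_symm.1 h
  sum := fun h => (Agl.mem_KK h).trans (Agl.sum_K h)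
  inv₁ := by
    intro f hf g hg
    have h := (Agl.times_fst f g).1 hg
    rw [h]
    exact Agl.S1_inv f hf
  inv₂ := by
    intro f hf g hg
    have h := (Agl.times_snd f g).1 hg
    rw [h]
    exact Agl.S2_inv f hf

/-- Part (a) of Q1 fails: `theta` is a rational inner function which is not a product of a
function of `z₁` and a function of `z₂`, and for some Agler decomposition of `K_θ` the numerical
range of `S^1_θ` is not open. -/
theorem result :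
    IsRIF theta ∧ (¬ ∃ f g : ℂ → ℂ, ∀ z ∈ bidisk, theta z = f z.1 * g z.2) ∧
      ∃ S₁ S₂ : Set H2, IsAgler theta S₁ S₂ ∧ ¬ IsOpen (numRange Prod.fst S₂) :=
  ⟨isRIF, Pool.Agent.X202.Agl.not_split, Pool.Agent.X202.Agl.S1, Pool.Agent.X202.Agl.S2, isAgler,
    Pool.Agent.X202.Agl.not_open⟩

end

end Pool.Agent.Results.MP_dfd7ce_an.NotOpen
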